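import Pool.Agent.helper99.PR.J2
import Pool.Agent.helper40.PR.J3
import Pool.Agent.helper14.PR.J4
import Pool.Agent.helper76.PR.J01

/-!
Module [J5] of the PR project (MP_15abe0_co): correlations.  helper87
-/

namespace Pool.Agent.helper1.PR

open Finset

/-- size -/
private def sz (u : ℤ√2) : ℤ := |u.re| + |u.im|

private theorem sz_nonneg (u : ℤ√2) : 0 ≤ sz u := by unfold sz; positivity

private theorem sz_mul (u v : ℤ√2) : sz (u * v) ≤ 2 * sz u * sz v := by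
  unfold sz
  simp only [Zsqrtd.re_mul, Zsqrtd.im_mul]
  have h1 : |u.re * v.re + 2 * u.im * v.im| ≤ |u.re| * |v.re| + 2 * (|u.im| * |v.im|) := by
    refine (abs_add_le _ _).trans ?_
    rw [abs_mul, abs_mul, abs_mul]
    norm_num
    linarith [abs_nonneg (u.im)]
  have h2 : |u.re * v.im + u.im * v.re| ≤ |u.re| * |v.im| + |u.im| * |v.re| := by
    refine (abs_add_le _ _).trans ?_
    rw [abs_mul, abs_mul]
  nlinarith [abs_nonneg u.re, abs_nonneg u.im, abs_nonneg v.re, abs_nonneg v.im,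
    mul_nonneg (abs_nonneg u.re) (abs_nonneg v.re), mul_nonneg (abs_nonneg u.re) (abs_nonneg v.im),
    mul_nonneg (abs_nonneg u.im) (abs_nonneg v.re), mul_nonneg (abs_nonneg u.im) (abs_nonneg v.im)]

private theorem exists_sharp (Δ : ℤ√2) (h : Δ ≠ 0) :
    ∃ ν : ℕ, 0 < ν ∧ ∃ Δ' : ℤ√2, Δ * Δ' = (ν : ℤ√2) := by
  have hns : ∀ n : ℤ, (2 : ℤ) ≠ n * n := by
    intro n hn
    have h1 : n < 2 := by nlinarith
    have h2 : -2 < n := by nlinarith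
    interval_cases n <;> omega
  have hn : Zsqrtd.norm Δ ≠ 0 := fun h0 => h ((Zsqrtd.norm_eq_zero hns Δ).1 h0)
  refine ⟨(Zsqrtd.norm Δ).natAbs, Int.natAbs_pos.2 hn, ?_⟩
  have hm := Zsqrtd.norm_eq_mul_conj Δ
  rcases Int.natAbs_eq (Zsqrtd.norm Δ) with h1 | h1
  · refine ⟨star Δ, ?_⟩
    rw [← hm]
    conv_lhs => rw [h1]
    exact Int.cast_natCast _
  · refine ⟨-star Δ, ?_⟩
    rw [mul_neg, ← hm]
    conv_lhs => rw [h1]
    rw [Int.cast_neg, neg_neg, Int.cast_natCast]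

private theorem tt_shift {Q' : ℕ} (hQ : 0 < Q') (N b : ℤ√2) (p : ℤ√2 × ℤ√2) :
    tt Q' (p + (b, (1 + (Q' : ℤ√2) * Zsqrtd.sqrtd * N) * b)) = tt Q' p - N * b := by
  have hQ0 : (Q' : ℤ) ≠ 0 := by positivity
  have hQ1 : (2 * (Q' : ℤ)) ≠ 0 := by positivity
  have e1 : (p + (b, (1 + (Q' : ℤ√2) * Zsqrtd.sqrtd * N) * b)).1 = p.1 + b := rfl
  have e2 : (p + (b, (1 + (Q' : ℤ√2) * Zsqrtd.sqrtd * N) * b)).2 =
    p.2 + (1 + (Q' : ℤ√2) * Zsqrtd.sqrtd * N) * b := rfl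
  unfold tt
  rw [e1, e2]
  apply Zsqrtd.ext
  · simp only [Zsqrtd.re_add, Zsqrtd.im_add, Zsqrtd.re_sub, Zsqrtd.im_mul, Zsqrtd.re_mul,
      Zsqrtd.re_one, Zsqrtd.im_one, Zsqrtd.re_natCast, Zsqrtd.im_natCast, Zsqrtd.re_sqrtd,
      Zsqrtd.im_sqrtd]
    rw [← Int.sub_mul_ediv_right _ _ hQ0]
    congr 1
    ring
  · simp only [Zsqrtd.re_add, Zsqrtd.im_add, Zsqrtd.im_sub, Zsqrtd.im_mul, Zsqrtd.re_mul,
      Zsqrtd.re_one, Zsqrtd.im_one, Zsqrtd.re_natCast, Zsqrtd.im_natCast, Zsqrtd.re_sqrtd,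
      Zsqrtd.im_sqrtd]
    rw [← Int.sub_mul_ediv_right _ _ hQ1]
    congr 1
    ring

private theorem xx_shift {Q' : ℕ} (hQ : 0 < Q') (N N' b : ℤ√2) (p : ℤ√2 × ℤ√2) :
    xx Q' N' (p + (b, (1 + (Q' : ℤ√2) * Zsqrtd.sqrtd * N) * b)) =
      xx Q' N' p + (N' - N) * b := by
  unfold xx
  rw [tt_shift hQ]
  have e1 : (p + (b, (1 + (Q' : ℤ√2) * Zsqrtd.sqrtd * N) * b)).1 = p.1 + b := rfl
  rw [e1]; ring

/-- averaging over shifts -/
private theorem corr_shift {Q' : ℕ} (hQ : 0 < Q') {N₁ N₂ : ℤ√2} (hne : N₁ ≠ N₂) :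
    ∃ ν : ℕ, 0 < ν ∧ ∃ C : ℝ, 0 ≤ C ∧ ∀ Lw Ly l : ℕ, 0 < Lw → Lw ≤ Ly → 0 < l →
      2 * Q' ∣ Lw → 2 * Q' ∣ Ly → ∀ g : ℤ√2 → ℝ, (∀ x, |g x| ≤ 1) →
      |∑ p ∈ Om Q' Lw Ly, g (xx Q' N₁ p) * g (xx Q' N₂ p) -
        ∑ p ∈ Om Q' Lw Ly, g (xx Q' N₁ p) * locav ν l g (xx Q' N₂ p)| ≤
        #(Om Q' Lw Ly) * (C * l / Lw) := by
  obtain ⟨ν, hν, Δ', hΔ⟩ := exists_sharp (N₁ - N₂) (sub_ne_zero.2 hne)
  set U : ℤ√2 := 1 + (Q' : ℤ√2) * Zsqrtd.sqrtd * N₁ with hU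
  set c1 : ℤ := 4 * sz Δ' with hc1
  set c2 : ℤ := 2 * sz U * c1 with hc2
  have hc1' : 0 ≤ c1 := by have := sz_nonneg Δ'; positivity
  have hc2' : 0 ≤ c2 := by have := sz_nonneg U; positivity
  refine ⟨ν, hν, 2 * ((c1 : ℝ) + c2), ?_, ?_⟩
  · have : (0 : ℝ) ≤ c1 := by exact_mod_cast hc1'
    have : (0 : ℝ) ≤ c2 := by exact_mod_cast hc2'
    positivity
  intro Lw Ly l hw hwy hl h1 h2 g hg
  have hLw : (0 : ℝ) < Lw := by exact_mod_cast hw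
  have hLy : (0 : ℝ) < Ly := lt_of_lt_of_le hLw (by exact_mod_cast hwy)
  have hl' : (0 : ℝ) < l := by exact_mod_cast hl
  set Ω := Om Q' Lw Ly with hΩ
  -- the single shift
  have hshift : ∀ a ∈ range l, ∀ b ∈ range l,
      |∑ p ∈ Ω, g (xx Q' N₁ p) * g (xx Q' N₂ p + ⟨(ν : ℤ) * a, (ν : ℤ) * b⟩) -
        ∑ p ∈ Ω, g (xx Q' N₁ p) * g (xx Q' N₂ p)| ≤
        #Ω * (2 * ((c1 : ℝ) + c2) * l / Lw) := by
    intro a ha b hb
    have ha' := mem_range.1 ha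
    have hb' := mem_range.1 hb
    set v : ℤ√2 := ⟨(a : ℤ), (b : ℤ)⟩ with hv
    set β : ℤ√2 := -(Δ' * v) with hβ
    have hszv : sz v ≤ 2 * l := by
      unfold sz
      simp only [hv, Nat.abs_cast]
      omega
    have hszβ : sz β ≤ c1 * l := by
      have e : sz β = sz (Δ' * v) := by
        unfold sz; rw [hβ, Zsqrtd.re_neg, Zsqrtd.im_neg, abs_neg, abs_neg]
      rw [e]
      refine (sz_mul _ _).trans ?_
      have := sz_nonneg Δ'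
      rw [hc1]; nlinarith
    have hszUβ : sz (U * β) ≤ c2 * l := by
      refine (sz_mul _ _).trans ?_
      have := sz_nonneg U
      rw [hc2]
      nlinarith [mul_nonneg this (sub_nonneg.2 hszβ)]
    have key := shift_Om_of hw (lt_of_lt_of_le hw hwy)
      (hl := fun F => sum_Om_left hQ h2 F) (hr := fun F => sum_Om_right hQ h1 F)
      (fun p => g (xx Q' N₁ p) * g (xx Q' N₂ p)) (fun p => by
        rw [abs_mul]; exact mul_le_one₀ (hg _) (abs_nonneg _) (hg _)) β (U * β)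
        ⟨-(N₁ * β).im, by
          simp only [hU, Zsqrtd.re_add, Zsqrtd.im_mul, Zsqrtd.re_mul,
            Zsqrtd.re_one, Zsqrtd.im_one, Zsqrtd.re_natCast, Zsqrtd.im_natCast, Zsqrtd.re_sqrtd,
            Zsqrtd.im_sqrtd, Zsqrtd.im_add]
          ring⟩
        ⟨-(N₁ * β).re, by
          simp only [hU, Zsqrtd.re_add, Zsqrtd.im_mul, Zsqrtd.re_mul,
            Zsqrtd.re_one, Zsqrtd.im_one, Zsqrtd.re_natCast, Zsqrtd.im_natCast, Zsqrtd.re_sqrtd,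
            Zsqrtd.im_sqrtd, Zsqrtd.im_add]
          ring⟩
    have e1 : ∀ p, xx Q' N₁ (p + (β, U * β)) = xx Q' N₁ p := fun p => by
      rw [hU, xx_shift hQ]; ring
    have e2 : ∀ p, xx Q' N₂ (p + (β, U * β)) = xx Q' N₂ p + ⟨(ν : ℤ) * a, (ν : ℤ) * b⟩ := by
      intro p
      rw [hU, xx_shift hQ]
      congr 1
      rw [hβ]
      calc (N₂ - N₁) * -(Δ' * v) = ((N₁ - N₂) * Δ') * v := by ring
        _ = (ν : ℤ√2) * v := by rw [hΔ]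
        _ = _ := by
          apply Zsqrtd.ext <;> simp [hv]
    simp only [e1, e2] at key
    refine key.trans ?_
    have f1 : (((|β.re| + |β.im| : ℤ) : ℝ)) ≤ c1 * l := by exact_mod_cast hszβ
    have f2 : (((|(U * β).re| + |(U * β).im| : ℤ) : ℝ)) ≤ c2 * l := by exact_mod_cast hszUβ
    have g1 : (((|β.re| + |β.im| : ℤ) : ℝ)) / Lw ≤ c1 * l / Lw := by gcongr
    have g2 : (((|(U * β).re| + |(U * β).im| : ℤ) : ℝ)) / Ly ≤ c2 * l / Lw := by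
      have h0 : (0 : ℝ) ≤ ((|(U * β).re| + |(U * β).im| : ℤ) : ℝ) := by
        have := sz_nonneg (U * β); exact_mod_cast this
      have hwy' : (Lw : ℝ) ≤ Ly := by exact_mod_cast hwy
      calc _ ≤ (((|(U * β).re| + |(U * β).im| : ℤ) : ℝ)) / Lw := by gcongr
        _ ≤ _ := by gcongr
    have h0 : (0 : ℝ) ≤ #Ω := by positivity
    calc 2 * (#Ω : ℝ) * ((((|β.re| + |β.im| : ℤ) : ℝ)) / Lw +
          (((|(U * β).re| + |(U * β).im| : ℤ) : ℝ)) / Ly) ≤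
          2 * (#Ω : ℝ) * (c1 * l / Lw + c2 * l / Lw) := by gcongr
      _ = _ := by ring
  -- average
  have hl2 : (0 : ℝ) < (l : ℝ) ^ 2 := by positivity
  have eB : ∑ p ∈ Ω, g (xx Q' N₁ p) * locav ν l g (xx Q' N₂ p) =
      (∑ a ∈ range l, ∑ b ∈ range l, ∑ p ∈ Ω,
        g (xx Q' N₁ p) * g (xx Q' N₂ p + ⟨(ν : ℤ) * a, (ν : ℤ) * b⟩)) / (l : ℝ) ^ 2 := by
    unfold locav
    have e : ∀ a ∈ range l, ∑ b ∈ range l, ∑ p ∈ Ω,
        g (xx Q' N₁ p) * g (xx Q' N₂ p + ⟨(ν : ℤ) * a, (ν : ℤ) * b⟩) =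
        ∑ p ∈ Ω, ∑ b ∈ range l,
          g (xx Q' N₁ p) * g (xx Q' N₂ p + ⟨(ν : ℤ) * a, (ν : ℤ) * b⟩) := fun a _ => sum_comm
    rw [sum_congr rfl e, sum_comm, sum_div]
    refine sum_congr rfl fun p _ => ?_
    rw [← mul_div_assoc]
    congr 1
    rw [mul_sum]
    refine sum_congr rfl fun a _ => ?_
    rw [mul_sum]
  have eA : ∑ p ∈ Ω, g (xx Q' N₁ p) * g (xx Q' N₂ p) =
      (∑ a ∈ range l, ∑ b ∈ range l, ∑ p ∈ Ω,
        g (xx Q' N₁ p) * g (xx Q' N₂ p)) / (l : ℝ) ^ 2 := by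
    rw [sum_const, sum_const, card_range, smul_smul, nsmul_eq_mul]
    push_cast
    field_simp
  rw [eA, eB, ← sub_div, abs_div, abs_of_pos hl2, div_le_iff₀ hl2, ← sum_sub_distrib]
  refine (abs_sum_le_sum_abs _ _).trans ?_
  calc _ ≤ ∑ a ∈ range l, ∑ b ∈ range l, (#Ω : ℝ) * (2 * ((c1 : ℝ) + c2) * l / Lw) := by
        refine sum_le_sum fun a ha => ?_
        rw [← sum_sub_distrib]
        refine (abs_sum_le_sum_abs _ _).trans (sum_le_sum fun b hb => ?_)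
        rw [abs_sub_comm]
        exact hshift a ha b hb
    _ = _ := by
        rw [sum_const, sum_const, card_range, smul_smul, nsmul_eq_mul]
        push_cast
        ring

/-- the local averages over `Om` -/
private theorem sum_locav_Om {Q' T h : ℕ} (hQ : 0 < Q') (hT : 0 < T) (hh : 0 < h) {δ : ℝ}
    (hδ : δ ≤ 1 / 16) {N₂ z : ℤ√2} (hN : 4 * (Q' : ℤ√2) * N₂ = z ^ 3 - 2 * Zsqrtd.sqrtd)
    (hz : Near δ (h * (2 * Q') * T) z) {L : ℕ} (hL : 0 < L) (d2 : 2 * Q' ∣ L)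
    (d3 : (2 * Q' * T) ^ 3 ∣ L) (G : ℤ√2 → ℝ) :
    ∑ p ∈ Om Q' L (h ^ 3 * L), (G (xx Q' N₂ p)) ^ 2 ≤
      (100 * #(Om Q' L (h ^ 3 * L)) / #(box (h ^ 3 * (2 * Q') ^ 2 * T ^ 3 * L))) *
        ∑ x ∈ (Om Q' L (h ^ 3 * L)).image (fun p => xx Q' N₂ p), (G x) ^ 2 := by
  set Ω := Om Q' L (h ^ 3 * L) with hΩ
  set B := box (h ^ 3 * (2 * Q') ^ 2 * T ^ 3 * L) with hB
  have hBcard : (0 : ℝ) < #B := by
    rw [hB, card_box]
    have : 0 < h ^ 3 * (2 * Q') ^ 2 * T ^ 3 * L := by positivity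
    positivity
  set X : ℤ√2 × ℤ√2 → ℤ√2 := fun p => xx Q' N₂ p with hX
  have e : ∑ p ∈ Ω, (G (X p)) ^ 2 =
      ∑ x ∈ Ω.image X, ∑ p ∈ Ω with X p = x, (G (X p)) ^ 2 :=
    (sum_fiberwise_of_maps_to (fun p hp => mem_image_of_mem X hp) _).symm
  rw [e, mul_sum]
  refine sum_le_sum fun x _ => ?_
  have e2 : ∑ p ∈ Ω with X p = x, (G (X p)) ^ 2 =
      #{p ∈ Ω | X p = x} * (G x) ^ 2 := by
    rw [sum_congr rfl (g := fun _ => (G x) ^ 2) (fun p hp => by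
      rw [(mem_filter.1 hp).2]), sum_const, nsmul_eq_mul]
  rw [e2]
  have hr := repr_Om (Q' := Q') (T := T) (h := h) (L := L) hQ hT hh d2
    (Nat.le_of_dvd hL d3) hδ hN hz x
  have hr' : (#{p ∈ Ω | X p = x} : ℝ) * #B ≤ 100 * #Ω := by exact_mod_cast hr
  have hr2 : (#{p ∈ Ω | X p = x} : ℝ) ≤ 100 * #Ω / #B := by
    rw [le_div_iff₀ hBcard]; exact hr'
  gcongr

private theorem small_err {K S0 n L l s' ν : ℕ} {ε : ℝ} (hε : 0 < ε) (hK : 0 < K) (hS : 0 < S0)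
    (hn0 : 0 < n) (hn : 200000 / ε ≤ n) (hl : L = S0 * l) (hlp : 0 < l) (hs' : 0 < s')
    (hν : 0 < ν) (hsn : K * S0 * n ∣ s') :
    (200000 : ℝ) * (((K * L : ℕ) : ℝ) / (s' * ν * l)) ^ 2 ≤ ε := by
  have hlR : (0 : ℝ) < l := by exact_mod_cast hlp
  have hS0R : (0 : ℝ) < S0 := by exact_mod_cast hS
  have hνR : (0 : ℝ) < ν := by exact_mod_cast hν
  have hKR : (0 : ℝ) < K := by exact_mod_cast hK
  have hs'R : (0 : ℝ) < s' := by exact_mod_cast hs'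
  have h1 : ((K * L : ℕ) : ℝ) / (s' * ν * l) = K * S0 / (s' * ν) := by
    push_cast
    rw [hl]
    push_cast
    field_simp
  have h2 : (K : ℝ) * S0 * n ≤ s' := by
    have := Nat.le_of_dvd hs' hsn
    exact_mod_cast this
  have h3 : (K : ℝ) * S0 / (s' * ν) ≤ 1 / n := by
    have hnR : (0 : ℝ) < n := by exact_mod_cast hn0
    rw [div_le_div_iff₀ (by positivity) hnR]
    have h4 : (s' : ℝ) ≤ s' * ν := by
      have : (1 : ℝ) ≤ ν := by exact_mod_cast hν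
      nlinarith
    linarith
  rw [h1]
  have hnR : (1 : ℝ) ≤ n := by exact_mod_cast hn0
  have h5 : ((K : ℝ) * S0 / (s' * ν)) ^ 2 ≤ (1 / n) ^ 2 := by gcongr
  have h6 : (1 / (n : ℝ)) ^ 2 ≤ 1 / n := by
    have : 1 / (n : ℝ) ≤ 1 := by
      rw [div_le_one (by linarith)]; exact hnR
    have h0 : 0 ≤ 1 / (n : ℝ) := by positivity
    nlinarith
  have h7 : 200000 * (1 / (n : ℝ)) ≤ ε := by
    rw [div_le_iff₀ hε] at hn
    rw [mul_one_div, div_le_iff₀ (by linarith)]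
    linarith
  linarith

private theorem abs_split {a b c : ℝ} (h : |a - b| ≤ c) : |a| ≤ c + |b| := by
  have h1 : |a| ≤ |a - b| + |b| := by
    have := abs_add_le (a - b) b
    rwa [sub_add_cancel] at this
  linarith

theorem corr {Q' T h : ℕ} (hQ : 0 < Q') (hT : 0 < T) (hh : 0 < h) {δ : ℝ} (hδ : δ ≤ 1 / 16)
    {N₁ N₂ z : ℤ√2} (hN : 4 * (Q' : ℤ√2) * N₂ = z ^ 3 - 2 * Zsqrtd.sqrtd)
    (hz : Near δ (h * (2 * Q') * T) z) (hne : N₁ ≠ N₂) {ε : ℝ} (hε : 0 < ε) :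
    ∃ M s D : ℕ, 0 < M ∧ 0 < s ∧ 0 < D ∧ ∀ M' s' : ℕ, 0 < M' → 0 < s' → M ∣ M' → s ∣ s' →
      ∀ L : ℕ, 0 < L → D * M' * s' ∣ L → ∀ g : ℤ√2 → ℝ, (∀ x, |g x| ≤ 1) →
      (∀ x, x ∉ box (h ^ 3 * (2 * Q') ^ 2 * T ^ 3 * L) → g x = 0) →
      |∑ p ∈ Om Q' L (h ^ 3 * L), g (xx Q' N₁ p) * g (xx Q' N₂ p)| ≤
        #(Om Q' L (h ^ 3 * L)) * (ε + √(200 *
          ((∑ x ∈ box (h ^ 3 * (2 * Q') ^ 2 * T ^ 3 * L),
            (cav M' s' (h ^ 3 * (2 * Q') ^ 2 * T ^ 3 * L) g x) ^ 2) /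
              #(box (h ^ 3 * (2 * Q') ^ 2 * T ^ 3 * L))) + ε)) := by
  obtain ⟨ν, hν, C, hC, hcs⟩ := corr_shift hQ hne
  obtain ⟨m, hm⟩ := exists_nat_ge (C / ε)
  obtain ⟨n, hn⟩ := exists_nat_ge (200000 / ε)
  have hn0 : 0 < n := by
    have h1 : 0 < 200000 / ε := by positivity
    exact_mod_cast h1.trans_le hn
  obtain ⟨S0, hS0⟩ : ∃ S0, S0 = m + ν := ⟨_, rfl⟩
  have hS0p : 0 < S0 := by omega
  obtain ⟨K, hK⟩ : ∃ K, K = h ^ 3 * (2 * Q') ^ 2 * T ^ 3 := ⟨_, rfl⟩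
  have hKp : 0 < K := by rw [hK]; positivity
  rw [← hK]
  refine ⟨ν, K * S0 * n, S0 * (2 * Q') * (2 * Q' * T) ^ 3, hν, by positivity, by positivity, ?_⟩
  intro M' s' hM' hs' hνM hsn L hL hDL g hg hg0
  have d1 : S0 ∣ L := by
    refine dvd_trans ⟨(2 * Q') * (2 * Q' * T) ^ 3 * M' * s', by ring⟩ hDL
  have d2 : 2 * Q' ∣ L := by
    refine dvd_trans ⟨S0 * (2 * Q' * T) ^ 3 * M' * s', by ring⟩ hDL
  have d3 : (2 * Q' * T) ^ 3 ∣ L := by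
    refine dvd_trans ⟨S0 * (2 * Q') * M' * s', by ring⟩ hDL
  have d4 : M' * s' ∣ K * L := by
    refine dvd_trans (dvd_trans ⟨S0 * (2 * Q') * (2 * Q' * T) ^ 3, by ring⟩ hDL)
      (dvd_mul_left _ _)
  have d5 : 2 * Q' ∣ h ^ 3 * L := dvd_mul_of_dvd_right d2 _
  obtain ⟨l, hl⟩ := d1
  have hlp : 0 < l := by
    rcases Nat.eq_zero_or_pos l with h0 | h0
    · rw [h0] at hl; omega
    · exact h0
  have hLR : (0 : ℝ) < L := by exact_mod_cast hL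
  -- step 1
  have s1 := hcs L (h ^ 3 * L) l hL (Nat.le_mul_of_pos_left _ (by positivity)) hlp d2 d5 g hg
  have s1' : C * l / L ≤ ε := by
    rw [div_le_iff₀ hLR, hl]
    push_cast
    have h1 : C ≤ ε * m := by
      rw [div_le_iff₀ hε] at hm; linarith
    have h2 : (m : ℝ) ≤ S0 := by rw [hS0]; push_cast; linarith
    have h3 : C ≤ ε * S0 := h1.trans (by gcongr)
    nlinarith [mul_nonneg (sub_nonneg.2 h3) (Nat.cast_nonneg (α := ℝ) l)]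
  have s4 := sum_locav_Om hQ hT hh hδ hN hz hL d2 d3 (locav ν l g)
  rw [← hK] at s4
  have s5 := sum_locav_sq (M := M') (s := s') (Λ := K * L) (ν := ν) (l := l) hM' hs'
    (by positivity) hν hlp hνM d4 (by
      have h1 : ν ≤ S0 := by omega
      have h2 : L ≤ K * L := Nat.le_mul_of_pos_left _ hKp
      calc ν * l ≤ S0 * l := Nat.mul_le_mul_right _ h1
        _ = L := hl.symm
        _ ≤ _ := h2) g hg hg0 ((Om Q' L (h ^ 3 * L)).image (fun p => xx Q' N₂ p))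
  have s6 := small_err (L := L) (l := l) (s' := s') (ν := ν) hε hKp hS0p hn0 hn hl hlp hs' hν hsn
  generalize hΩ : Om Q' L (h ^ 3 * L) = Ω at s1 s4 s5 ⊢
  generalize hE : ∑ x ∈ box (K * L), (cav M' s' (K * L) g x) ^ 2 = E at s5 ⊢
  have hE0 : 0 ≤ E := hE ▸ sum_nonneg fun _ _ => sq_nonneg _
  have hBcard : (0 : ℝ) < #(box (K * L)) := by
    rw [card_box]
    have : 0 < K * L := by positivity
    positivity
  generalize (#(box (K * L)) : ℝ) = B at s4 s5 hBcard ⊢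
  generalize (∑ x ∈ Ω.image (fun p => xx Q' N₂ p), (locav ν l g x) ^ 2) = I at s4 s5
  generalize (((K * L : ℕ) : ℝ) / (s' * ν * l)) ^ 2 = R at s5 s6
  have h0 : (0 : ℝ) ≤ #Ω := by positivity
  have s2 : |∑ p ∈ Ω, g (xx Q' N₁ p) * locav ν l g (xx Q' N₂ p)| ≤
      ∑ p ∈ Ω, |locav ν l g (xx Q' N₂ p)| := by
    refine (abs_sum_le_sum_abs _ _).trans (sum_le_sum fun p _ => ?_)
    rw [abs_mul]
    exact mul_le_of_le_one_left (abs_nonneg _) (hg _)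
  have s3 : (∑ p ∈ Ω, |locav ν l g (xx Q' N₂ p)|) ^ 2 ≤
      #Ω * ∑ p ∈ Ω, (locav ν l g (xx Q' N₂ p)) ^ 2 := by
    have := sq_sum_le_card_mul_sum_sq (s := Ω) (f := fun p => |locav ν l g (xx Q' N₂ p)|)
    simpa only [sq_abs] using this
  have s7 : (∑ p ∈ Ω, |locav ν l g (xx Q' N₂ p)|) ^ 2 ≤ (#Ω : ℝ) ^ 2 * (200 * (E / B) + ε) := by
    refine s3.trans ?_
    have h1 : I ≤ 2 * E + ε / 100 * B := by
      refine s5.trans ?_
      have : 2000 * R * B ≤ ε / 100 * B := by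
        have h2 : 2000 * R ≤ ε / 100 := by linarith
        gcongr
      linarith
    calc (#Ω : ℝ) * ∑ p ∈ Ω, (locav ν l g (xx Q' N₂ p)) ^ 2
        ≤ #Ω * ((100 * #Ω / B) * (2 * E + ε / 100 * B)) := by
          gcongr
          exact s4.trans (by gcongr)
      _ = _ := by field_simp; ring
  have s8 : ∑ p ∈ Ω, |locav ν l g (xx Q' N₂ p)| ≤ #Ω * √(200 * (E / B) + ε) := by
    have : #Ω * √(200 * (E / B) + ε) = √((#Ω : ℝ) ^ 2 * (200 * (E / B) + ε)) := by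
      rw [Real.sqrt_mul (by positivity), Real.sqrt_sq h0]
    rw [this]
    exact Real.le_sqrt_of_sq_le s7
  have s10 : (#Ω : ℝ) * (C * l / L) ≤ #Ω * ε := by gcongr
  have s9 := abs_split (s1.trans s10)
  rw [mul_add]
  linarith [s2.trans s8]

end Pool.Agent.helper1.PR
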